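import Pool.Agent.J4H74.TW.Main

set_option autoImplicit false

/-!
# Turing degrees of countably categorical theories with computable models (MP_f36693_lc, Q1)

Negative answer. There is a set `A ≤_T 0^(ω)` such that no complete theory (countably categorical
or not), in any computable signature, which has a computable model is Turing equivalent to `A`.

The definitions are in `Pool.Agent.J4H74.TW.Defs`. Turing reducibility is Mathlib's
`TuringReducible` (for characteristic functions); `jumpN n` is the `n`-th Turing jump of the empty
set, `zeroOmega = {⟨n, x⟩ : x ∈ 0^(n)}`; `Sig` are the computable signatures, `Sig.lang` the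
corresponding first-order languages of Mathlib, `fcode` is the Gödel numbering of formulas,
`codes T` the set of the Gödel numbers of the sentences in `T`; the universe of a computable
structure is a computable set `D` of natural numbers, and its functions and relations are uniformly
computable.

Idea. The theories of computable structures are uniformly computable in `0^(ω)` (by many-one
reductions to `0^(ω)`, whose indices can be listed). With the oracle `0^(ω)` one builds `A` by
finite extensions: given a string `σ`, functionals `Φ`, `Ψ` and a set `B` of the list, ask for
`i = 0, 1` whether some `τ ⊇ σ i` has `Ψ^(Φ^τ)(|σ|) = i`. If not for some `i`, continue with `σ i`;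
otherwise the two answers use different values of `Φ^τ`, one of which is wrong about `B`, or else
`Ψ^B` is inconsistent.
-/

namespace Pool.Agent.Results.MP_f36693_lc.DegreeWithoutTheory

open FirstOrder FirstOrder.Language
open Pool.Agent.J4H74.TW

theorem result : ∃ A : ℕ → Bool, TLe A zeroOmega ∧
    ∀ (σ : Sig) (D : ℕ → Bool) [σ.lang.Structure {d : ℕ // D d = true}], IsComputable σ D →
      ∀ T : σ.lang.Theory, T.IsMaximal → {d : ℕ // D d = true} ⊨ T →
        ¬ TEquiv (codes T) A := by
  obtain ⟨A, hA, h⟩ := main
  refine ⟨A, hA, fun σ D inst hM T hT hMT => ?_⟩
  have h1 : T = σ.lang.completeTheory {d : ℕ // D d = true} := by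
    ext φ
    constructor
    · intro hφ
      exact hMT.realize_of_mem φ hφ
    · intro hφ
      rcases hT.mem_or_not_mem φ with h2 | h2
      · exact h2
      · have h3 : {d : ℕ // D d = true} ⊨ φ.not := hMT.realize_of_mem _ h2
        rw [Sentence.realize_not] at h3
        exact absurd hφ h3
  rw [h1]
  exact h σ D hM

end Pool.Agent.Results.MP_f36693_lc.DegreeWithoutTheory
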